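import Pool.Agent.Lib.helper10.Gf2

namespace Pool.Agent.Results.MP_474c54_lc.InP

open Pool.Agent.Cx List Polynomial

/-- the followers of `u` in the digraph with arc list `E` -/
def fol (E : List (ℕ × ℕ)) (u : ℕ) : Finset ℕ := ((E.filter fun e => e.1 = u).map Prod.snd).toFinset

/-- a move of `k`-annihilation from the position `S` to the position `T` -/
def Move (k : ℕ) (E : List (ℕ × ℕ)) (S T : Finset ℕ) : Prop :=
  ∃ u ∈ S, ∃ F ⊆ fol E u, F.card = min k (fol E u).card ∧ T = symmDiff (S.erase u) F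

/-- the previous player can force a win within `r` further moves of his own -/
def PW (k : ℕ) (E : List (ℕ × ℕ)) : ℕ → Finset ℕ → Prop
  | 0, S => ∀ T, ¬ Move k E S T
  | r + 1, S => ∀ T, Move k E S T → ∃ U, Move k E T U ∧ PW k E r U

/-- the previous player can force a win -/
def IsP (k : ℕ) (E : List (ℕ × ℕ)) (S : Finset ℕ) : Prop := ∃ r, PW k E r S

/-- the next player can force a win -/
def IsN (k : ℕ) (E : List (ℕ × ℕ)) (S : Finset ℕ) : Prop := ∃ T, Move k E S T ∧ IsP k E T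

/-- neither player can force a win -/
def IsO (k : ℕ) (E : List (ℕ × ℕ)) (S : Finset ℕ) : Prop := ¬ IsP k E S ∧ ¬ IsN k E S

variable {k : ℕ} {E : List (ℕ × ℕ)}

def Mv (k : ℕ) (E : List (ℕ × ℕ)) (u : ℕ) (F : Finset ℕ) : Prop :=
  F ⊆ fol E u ∧ F.card = min k (fol E u).card

lemma move_iff {S T : Finset ℕ} :
    Move k E S T ↔ ∃ u ∈ S, ∃ F, Mv k E u F ∧ T = symmDiff S (symmDiff {u} F) := by
  refine exists_congr fun u => and_congr_right fun h => exists_congr fun F => ?_
  rw [Mv, and_assoc, ← symmDiff_assoc]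
  congr! 4
  ext x; simp only [Finset.mem_erase, Finset.mem_symmDiff, Finset.mem_singleton]; grind

lemma PW.succ {r : ℕ} : ∀ {S}, PW k E r S → PW k E (r + 1) S := by
  induction r with
  | zero => exact fun h T g => absurd g (h T)
  | succ r ih => exact fun h T g => let ⟨U, a, b⟩ := h T g; ⟨U, a, ih b⟩

lemma PW.mono {r s : ℕ} {S : Finset ℕ} (h : PW k E r S) (g : r ≤ s) : PW k E s S := by
  induction g with
  | refl => exact h
  | step _ ih => exact ih.succ

lemma PW.resp {r : ℕ} {S T : Finset ℕ} (h : PW k E r S) (g : Move k E S T) :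
    ∃ s, r = s + 1 ∧ ∃ U, Move k E T U ∧ PW k E s U := by
  cases r with
  | zero => exact absurd g (h T)
  | succ r => exact ⟨r, rfl, h T g⟩

lemma not_pn (r : ℕ) : ∀ s S T, PW k E r S → PW k E s T → ¬ Move k E S T := by
  induction r using Nat.strong_induction_on with
  | _ r ih =>
    intro s S T a b c
    obtain ⟨r, rfl, U, d, e⟩ := a.resp c
    obtain ⟨s, rfl, V, f, g⟩ := b.resp d
    exact ih r (by omega) _ _ _ e g f

/-- the positions won by the previous player are closed under symmetric difference -/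
lemma lin (n : ℕ) : ∀ a b, a + b = n → (∀ A B, PW k E a A → PW k E b B → PW k E n (symmDiff A B)) ∧
    ∀ A B C, PW k E a A → Move k E B C → PW k E b C → ∃ U, Move k E (symmDiff A B) U ∧ PW k E n U := by
  induction n using Nat.strong_induction_on with
  | _ n ih =>
    have k1 : ∀ a b, a + b = n → ∀ A B u F, PW k E a A → PW k E b B → u ∈ A → Mv k E u F → ∃ s, n = s + 1 ∧
        ∃ U, Move k E (symmDiff (symmDiff A B) (symmDiff {u} F)) U ∧ PW k E s U := by
      intro a b e A B u F hA hB hu hF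
      obtain ⟨a, rfl, U, d, g⟩ := hA.resp (move_iff.2 ⟨u, hu, F, hF, rfl⟩)
      obtain ⟨V, h⟩ := (ih (b + a) (by omega) b a rfl).2 B _ U hB d g
      exact ⟨b + a, by omega, V, by rwa [symmDiff_comm A B, symmDiff_assoc]⟩
    have k2 : ∀ a b, a + b = n → ∀ A B, PW k E a A → PW k E b B → PW k E n (symmDiff A B) := by
      intro a b e A B hA hB
      have : ∀ T, Move k E (symmDiff A B) T → ∃ s, n = s + 1 ∧ ∃ U, Move k E T U ∧ PW k E s U := by
        intro T h
        obtain ⟨u, hu, F, hF, rfl⟩ := move_iff.1 h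
        rcases Finset.mem_symmDiff.1 hu with g | g
        · exact k1 a b e A B u F hA hB g.1 hF
        · rw [symmDiff_comm A B]; exact k1 b a (by omega) B A u F hB hA g.1 hF
      cases n with
      | zero => exact fun T h => by simpa using this T h
      | succ n => exact fun T h => by obtain ⟨s, e, g⟩ := this T h; cases e; exact g
    refine fun a b e => ⟨k2 a b e, fun A B C hA h hC => ?_⟩
    obtain ⟨u, hu, F, hF, rfl⟩ := move_iff.1 h
    by_cases g : u ∈ A
    · obtain ⟨s, rfl, U, c, d⟩ := k1 a b e A _ u F hA hC g hF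
      rw [symmDiff_assoc, symmDiff_symmDiff_cancel_right] at c
      exact ⟨U, c, d.succ⟩
    · exact ⟨_, move_iff.2 ⟨u, by simp [Finset.mem_symmDiff, g, hu], F, hF, rfl⟩,
        symmDiff_assoc A B _ ▸ k2 a b e A _ hA hC⟩

lemma IsP.add {A B : Finset ℕ} (a : IsP k E A) (b : IsP k E B) : IsP k E (symmDiff A B) :=
  let ⟨r, a⟩ := a; let ⟨s, b⟩ := b; ⟨_, (lin _ r s rfl).1 A B a b⟩

def fl (n : ℕ) (E : List (ℕ × ℕ)) (u : ℕ) : List ℕ := (range n).filter fun v => decide ((u, v) ∈ E)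

def mvs (k n : ℕ) (E : List (ℕ × ℕ)) : List (ℕ × List ℕ) := (range n).flatMap fun u =>
  ((words (range n) k ((n + 1) ^ k)).filter fun F => decide (F.Nodup ∧ (¬ ∃ v ∈ F, v ∉ fl n E u) ∧
    F.length = min k (fl n E u).length)).map fun F => (u, F)

def mv (n : ℕ) (m : ℕ × List ℕ) : List ℕ := sd (range n) [m.1] m.2

def cand (n : ℕ) (M : List (ℕ × List ℕ)) (j : ℕ) : List ℕ :=
  sd (range n) (mv n (M.getD (j / M.length) (0, []))) (mv n (M.getD (j % M.length) (0, [])))

open Classical in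
noncomputable def bad (n : ℕ) (M : List (ℕ × List ℕ)) (B : List (List ℕ)) (c : List ℕ) : List ℕ :=
  (range n).filter fun u => decide (∃ m ∈ M, m.1 = u ∧ ¬ ∃ m' ∈ M, m'.1 ∉ m'.2 ∧
    Sol (range n) B (sd (range n) (sd (range n) c (mv n m)) (mv n m')))

open Classical in
noncomputable def basis (n : ℕ) (M : List (ℕ × List ℕ)) : List (List ℕ) :=
  (clo (M.length * M.length) (fun D j => decide (j ∈ D ∨
    Sol (bad n M (D.map (cand n M)) (cand n M j)) (D.map (cand n M)) (cand n M j))) []).map (cand n M)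

section
variable {n : ℕ} (hE : ∀ e ∈ E, e.2 < n)
include hE

lemma fl_eq (u : ℕ) : (fl n E u).toFinset = fol E u := by
  ext v
  simpa [fl, fol] using fun h => hE _ h

lemma mvs_iff {m : ℕ × List ℕ} :
    m ∈ mvs k n E ↔ m.1 < n ∧ m.2.Nodup ∧ Mv k E m.1 m.2.toFinset := by
  have c : ∀ u, (fol E u).card = (fl n E u).length := fun u => by
    rw [← fl_eq hE]; exact toFinset_card_of_nodup (nodup_range.filter _)
  rw [Mv, c]
  simp only [mvs, mem_flatMap, mem_range, mem_map, mem_filter, decide_eq_true_eq, not_exists,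
    not_and, not_not, ← fl_eq hE, Finset.subset_iff, mem_toFinset]
  constructor
  · rintro ⟨u, a, F, ⟨-, b, d, e⟩, rfl⟩
    exact ⟨a, b, d, by rwa [toFinset_card_of_nodup b]⟩
  · rintro ⟨a, b, d, e⟩
    rw [toFinset_card_of_nodup b] at e
    exact ⟨_, a, _, ⟨(mem_words (by simp)).2 _ (by omega) fun x hx => (mem_filter.1 (d hx)).1, b, d, e⟩, rfl⟩

lemma mv_eq {m : ℕ × List ℕ} (h : m ∈ mvs k n E) : (mv n m).toFinset = symmDiff {m.1} m.2.toFinset := by
  obtain ⟨a, -, b, -⟩ := (mvs_iff hE).1 h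
  ext x
  have : x ∈ m.2 → x < n := fun g => by
    have := b (mem_toFinset.2 g)
    rw [← fl_eq hE] at this
    simpa using (mem_filter.1 (mem_toFinset.1 this)).1
  simp only [mv, mem_toFinset, mem_sd, mem_range, Finset.mem_symmDiff, Finset.mem_singleton, mem_singleton]
  grind

lemma move_mvs {S T : Finset ℕ} (hS : ∀ x ∈ S, x < n) :
    Move k E S T ↔ ∃ m ∈ mvs k n E, m.1 ∈ S ∧ T = symmDiff S (mv n m).toFinset := by
  rw [move_iff]
  constructor
  · rintro ⟨u, a, F, b, rfl⟩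
    have : (u, F.toList) ∈ mvs k n E := (mvs_iff hE).2 ⟨hS u a, F.nodup_toList, by simpa using b⟩
    exact ⟨_, this, a, by rw [mv_eq hE this]; simp⟩
  · rintro ⟨m, a, b, rfl⟩
    exact ⟨_, b, _, ((mvs_iff hE).1 a).2.2, by rw [mv_eq hE a]⟩
end

lemma sd_eq {n : ℕ} {a b : List ℕ} (ha : ∀ x ∈ a, x < n) (hb : ∀ x ∈ b, x < n) :
    (sd (range n) a b).toFinset = symmDiff a.toFinset b.toFinset := by
  ext x
  have := ha x
  have := hb x
  simp only [mem_toFinset, mem_sd, mem_range, Finset.mem_symmDiff]; grind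

lemma sd_lt {n : ℕ} {a b : List ℕ} : ∀ x ∈ sd (range n) a b, x < n := fun _ h => mem_range.1 (mem_sd.1 h).1

def ch (S : Finset ℕ) : ℕ → ZMod 2 := fun i => if i ∈ S then 1 else 0

lemma ch_add (S T : Finset ℕ) : ch (symmDiff S T) = ch S + ch T := by
  ext x
  by_cases h : x ∈ S <;> by_cases g : x ∈ T <;> simp [ch, Finset.mem_symmDiff, h, g]
  rfl

lemma ch_eq (l : List ℕ) : chi l = ch l.toFinset := by ext x; simp [chi, ch]

lemma ch_iff {S T : Finset ℕ} {x : ℕ} (h : ch S x = ch T x) : x ∈ S ↔ x ∈ T := by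
  by_cases a : x ∈ S <;> by_cases b : x ∈ T <;> simp_all [ch]

lemma spn_ind {B : List (List ℕ)} {Q : Finset ℕ → Prop} (h0 : Q ∅) (h1 : ∀ b ∈ B, Q b.toFinset)
    (h2 : ∀ S T, Q S → Q T → Q (symmDiff S T)) {x : ℕ → ZMod 2} (h : x ∈ Spn B) : ∃ S, Q S ∧ x = ch S := by
  induction h using Submodule.span_induction with
  | mem x hx => obtain ⟨b, hb, rfl⟩ := hx; exact ⟨_, h1 b hb, ch_eq b⟩
  | zero => exact ⟨∅, h0, by ext; simp [ch]⟩
  | add x y _ _ a b =>
    obtain ⟨S, a, rfl⟩ := a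
    obtain ⟨T, b, rfl⟩ := b
    exact ⟨_, h2 S T a b, (ch_add S T).symm⟩
  | smul a x _ b =>
    obtain rfl | rfl : a = 0 ∨ a = 1 := by revert a; decide
    · exact ⟨∅, h0, by ext; simp [ch]⟩
    · simpa using b

lemma sol_full {n : ℕ} {B : List (List ℕ)} (hB : ∀ b ∈ B, ∀ x ∈ b, x < n) {v : List ℕ} (hv : ∀ x ∈ v, x < n) :
    Sol (range n) B v ↔ ch v.toFinset ∈ Spn B := by
  refine ⟨fun ⟨x, a, b⟩ => ?_, fun h => ⟨_, h, fun i _ => by rw [ch_eq]⟩⟩
  obtain ⟨S, c, rfl⟩ := spn_ind (Q := fun S => ∀ x ∈ S, x < n) (by simp) (by simpa using hB)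
    (fun S T a b x h => (Finset.mem_symmDiff.1 h).elim (fun h => a x h.1) fun h => b x h.1) a
  convert a using 1
  ext i
  by_cases h : i < n
  · rw [← ch_eq, b i (mem_range.2 h)]
  · simp [ch, mt (c i) h, mt (hv i) h]

lemma isP_of (S : Finset ℕ) (h : ∀ T, Move k E S T → IsN k E T) : IsP k E S := by
  have f : {T | Move k E S T}.Finite := by
    refine ((S.sigma fun u => (fol E u).powerset).image fun x => symmDiff (S.erase x.1) x.2).finite_toSet.subset ?_
    rintro _ ⟨u, a, F, b, -, rfl⟩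
    exact Finset.mem_coe.2 (Finset.mem_image.2 ⟨⟨u, F⟩, by simp [a, b], rfl⟩)
  choose! U a r b using h
  obtain ⟨R, hR⟩ := (f.image r).bddAbove
  exact ⟨R + 1, fun T g => ⟨U T, a T g, (b T g).mono (hR ⟨T, g, rfl⟩)⟩⟩

theorem basis_spec {n : ℕ} (hE : ∀ e ∈ E, e.2 < n) (S : Finset ℕ) (hS : ∀ x ∈ S, x < n) :
    ch S ∈ Spn (basis n (mvs k n E)) ↔ IsP k E S := by
  classical
  have cl : ∀ D : List ℕ, ∀ b ∈ D.map (cand n (mvs k n E)), ∀ x ∈ b, x < n := fun D b h => by
    obtain ⟨j, -, rfl⟩ := mem_map.1 h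
    exact sd_lt
  have sp : ∀ B : List (List ℕ), (∀ b ∈ B, IsP k E b.toFinset) → ∀ S, ch S ∈ Spn B → IsP k E S :=
    fun B h S g => by
      obtain ⟨T, a, b⟩ := spn_ind (Q := IsP k E) ⟨0, by simp [PW, Move]⟩ h (fun _ _ => IsP.add) g
      rwa [show S = T from Finset.ext fun x => ch_iff (congrFun b x)]
  have ml : ∀ m, ∀ x ∈ mv n m, x < n := fun m => sd_lt
  have sl : ∀ {S : Finset ℕ}, (∀ x ∈ S, x < n) → ∀ m, ∀ x ∈ symmDiff S (mv n m).toFinset, x < n :=
    fun a m x h => (Finset.mem_symmDiff.1 h).elim (fun h => a x h.1) fun h => ml m x (mem_toFinset.1 h.1)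
  refine ⟨sp _ (fun b hb => ?_) S, ?_⟩
  · obtain ⟨j, hj, rfl⟩ := mem_map.1 hb
    refine clo_ind _ (P := fun j => IsP k E (cand n (mvs k n E) j).toFinset) (by simp) ?_ j hj
    simp only [decide_eq_true_eq]
    rintro D hD j - (h | ⟨x, a, b⟩)
    · exact hD j h
    have hB : ∀ b ∈ D.map (cand n (mvs k n E)), IsP k E b.toFinset := by simpa using hD
    obtain ⟨K, ⟨c, d⟩, rfl⟩ := spn_ind (Q := fun S => (∀ x ∈ S, x < n) ∧ IsP k E S)
      ⟨by simp, 0, by simp [PW, Move]⟩ (fun b h => ⟨by simpa using cl D b h, hB b h⟩)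
      (fun S T a b => ⟨fun x h => (Finset.mem_symmDiff.1 h).elim (fun h => a.1 x h.1) fun h => b.1 x h.1,
        a.2.add b.2⟩) a
    have c' : ∀ x ∈ cand n (mvs k n E) j, x < n := sd_lt
    generalize cand n (mvs k n E) j = v at *
    have l : ∀ x ∈ symmDiff v.toFinset K, x < n := fun x h =>
      (Finset.mem_symmDiff.1 h).elim (fun h => c' x (mem_toFinset.1 h.1)) fun h => c x h.1
    rw [← symmDiff_symmDiff_cancel_right K v.toFinset]
    refine (isP_of _ fun T hT => ?_).add d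
    obtain ⟨m, hm, hu, rfl⟩ := (move_mvs hE l).1 hT
    have : m.1 ∉ bad n (mvs k n E) (D.map (cand n (mvs k n E))) v := fun g => by
      have := ch_iff ((ch_eq v ▸ b) _ g)
      simp only [Finset.mem_symmDiff] at hu; tauto
    simp only [bad, mem_filter, mem_range, l _ hu, decide_eq_true_eq, true_and, not_exists, not_and] at this
    have := this m hm rfl
    push Not at this
    obtain ⟨m', hm', nl, g⟩ := this
    rw [sol_full (cl D) sd_lt, sd_eq sd_lt (ml _), sd_eq c' (ml _)] at g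
    have g := (sp _ hB _ g).add d
    rw [symmDiff_right_comm, symmDiff_right_comm v.toFinset] at g
    by_cases q : m'.1 ∈ symmDiff (symmDiff v.toFinset K) (mv n m).toFinset
    · exact ⟨_, (move_mvs hE (sl l m)).2 ⟨m', hm', q, rfl⟩, g⟩
    · obtain ⟨r, g⟩ := g
      obtain ⟨s, -, U, g⟩ := g.resp ((move_mvs hE (sl (sl l m) m')).2 ⟨m', hm', by
        rw [Finset.mem_symmDiff, mv_eq hE hm']; simp [q, nl, Finset.mem_symmDiff],
        (symmDiff_symmDiff_cancel_right _ _).symm⟩)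
      exact ⟨U, g.1, s, g.2⟩
  · rintro ⟨r, h⟩
    induction r using Nat.strong_induction_on generalizing S with
    | _ r ih =>
    have a : ∀ m ∈ mvs k n E, m.1 ∈ S → ∃ m' ∈ mvs k n E, m'.1 ∉ m'.2 ∧
        ch (symmDiff (symmDiff S (mv n m).toFinset) (mv n m').toFinset) ∈ Spn (basis n (mvs k n E)) := by
      intro m hm hu
      obtain ⟨s, rfl, g⟩ := h.resp ((move_mvs hE hS).2 ⟨m, hm, hu, rfl⟩)
      have ex : ∃ s, ∃ U, Move k E (symmDiff S (mv n m).toFinset) U ∧ PW k E s U := ⟨s, g⟩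
      obtain ⟨U, b, c⟩ := Nat.find_spec ex
      obtain ⟨m', hm', hu', rfl⟩ := (move_mvs hE (sl hS m)).1 b
      refine ⟨m', hm', fun q => ?_, ih _ (Nat.lt_succ_of_le (Nat.find_min' ex g)) _ (sl (sl hS m) m') c⟩
      obtain ⟨t, e, g⟩ := c.resp ((move_mvs hE (sl (sl hS m) m')).2 ⟨m', hm', by
        rw [Finset.mem_symmDiff, mv_eq hE hm']; simp [q, hu', Finset.mem_symmDiff],
        (symmDiff_symmDiff_cancel_right _ _).symm⟩)
      exact Nat.find_min ex (by omega) g
    rcases S.eq_empty_or_nonempty with rfl | ⟨u, hu⟩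
    · exact (show ch ∅ = 0 by ext; simp [ch]) ▸ (Spn _).zero_mem
    obtain ⟨F, hF⟩ := Finset.exists_subset_card_eq (min_le_right k (fol E u).card)
    obtain ⟨m, hm, hu, -⟩ := (move_mvs hE hS).1 ⟨u, hu, F, hF.1, hF.2, rfl⟩
    obtain ⟨m', hm', -, b⟩ := a m hm hu
    obtain ⟨i, hi, rfl⟩ := getElem_of_mem hm
    obtain ⟨j, hj, rfl⟩ := getElem_of_mem hm'
    have c : (cand n (mvs k n E) ((mvs k n E).length * i + j)).toFinset =
        symmDiff (mv n (mvs k n E)[i]).toFinset (mv n (mvs k n E)[j]).toFinset := by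
      rw [cand, sd_eq (ml _) (ml _), Nat.mul_add_div (by omega), Nat.div_eq_of_lt hj, Nat.mul_add_mod,
        Nat.mod_eq_of_lt hj, add_zero, getD_eq_getElem _ _ hi, getD_eq_getElem _ _ hj]
    rw [symmDiff_assoc, ← c] at b
    have c' : ∀ x ∈ cand n (mvs k n E) ((mvs k n E).length * i + j), x < n := sd_lt
    have : cand n (mvs k n E) ((mvs k n E).length * i + j) ∈ basis n (mvs k n E) := by
      refine mem_map_of_mem (clo_fix (by simp +contextual) _ (by nlinarith)
        (decide_eq_true (Or.inr ⟨_, b, fun x hx => ?_⟩)))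
      generalize cand n (mvs k n E) ((mvs k n E).length * i + j) = v at *
      simp only [bad, mem_filter, decide_eq_true_eq] at hx
      obtain ⟨-, m, hm, rfl, g⟩ := hx
      have : m.1 ∉ S := fun q => g (by
        obtain ⟨m', hm', e, f⟩ := a m hm q
        refine ⟨m', hm', e, ?_⟩
        rw [sol_full (cl _) sd_lt, sd_eq sd_lt (ml _), sd_eq c' (ml _)]
        have := (Spn _).add_mem b f
        rwa [← ch_add, symmDiff_assoc S (mv n m).toFinset, symmDiff_symmDiff_symmDiff_comm, symmDiff_self,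
          bot_symmDiff, ← symmDiff_assoc] at this)
      rw [ch_add, ch_eq]; simp [ch, this]
    have := (Spn _).add_mem b (Submodule.subset_span ⟨_, this, rfl⟩)
    rwa [ch_eq, ← ch_add, symmDiff_symmDiff_cancel_right] at this

open Classical in
noncomputable def out (n : ℕ) (M : List (ℕ × List ℕ)) (B : List (List ℕ)) (S : List ℕ) : ℕ × List ℕ :=
  if Sol (range n) B S then (0, []) else
    ((M.find? fun m => decide (m.1 ∈ S ∧ Sol (range n) B (sd (range n) S (mv n m)))).map
      fun m => (1, sd (range n) S (mv n m))).getD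
    (2, ((M.find? fun m => decide (m.1 ∈ S ∧ ¬ ∃ m' ∈ M, m'.1 ∈ sd (range n) S (mv n m) ∧
      Sol (range n) B (sd (range n) (sd (range n) S (mv n m)) (mv n m')))).map
        fun m => sd (range n) S (mv n m)).getD [])

section
variable {α : Type} [Enc α] {n : α → ℕ} {M : α → List (ℕ × List ℕ)} {B : α → List (List ℕ)} {c : α → List ℕ}

@[fun_prop] lemma pt_mv {m : α → ℕ × List ℕ} (hn : PT n) (hm : PT m) : PT fun a => mv (n a) (m a) := by
  unfold mv; fun_prop

@[fun_prop] lemma pt_cand {j : α → ℕ} (hn : PT n) (hM : PT M) (hj : PT j) :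
    PT fun a => cand (n a) (M a) (j a) := by unfold cand; fun_prop

@[fun_prop] lemma pt_bad (hn : PT n) (hM : PT M) (hB : PT B) (hc : PT c) :
    PT fun a => bad (n a) (M a) (B a) (c a) := PT.filter (PP.decide (by fun_prop)) (by fun_prop)

open Classical in
@[fun_prop] lemma pt_basis (hn : PT n) (hM : PT M) : PT fun a => basis (n a) (M a) :=
  PT.map (by fun_prop) (PT.clo (c := fun y D j => decide (j ∈ D ∨ Sol (bad (n y) (M y)
    (D.map (cand (n y) (M y))) (cand (n y) (M y) j)) (D.map (cand (n y) (M y))) (cand (n y) (M y) j)))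
    (by fun_prop) (PP.decide (by fun_prop)) (by fun_prop))

open Classical in
lemma pt_out' (hn : PT n) (hM : PT M) (hB : PT B) (hc : PT c) : PT fun a => out (n a) (M a) (B a) (c a) :=
  PP.ite (by fun_prop) (by fun_prop) (PT.optGetD (PT.optMap (by fun_prop)
    (PT.find? (PP.decide (by fun_prop)) hM)) (PT.pair (by fun_prop) (PT.optGetD (PT.optMap
      (by fun_prop) (PT.find? (PP.decide (by fun_prop)) hM)) (by fun_prop))))
end

lemma pt_out (k : ℕ) : PT fun z : List (ℕ × ℕ) × List ℕ =>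
    out (size z) (mvs k (size z) z.1) (basis (size z) (mvs k (size z) z.1)) z.2 := by
  have a : PT fun z : List (ℕ × ℕ) × List ℕ => mvs k (size z) z.1 := by
    unfold mvs fl
    exact PT.flatMap (PT.map (by fun_prop) (PT.filter (PP.decide (by fun_prop)) (by fun_prop))) (by fun_prop)
  exact pt_out' PT.id.size a (pt_basis PT.id.size a) PT.id.snd

/-- For every `k`, the outcome class of a position and an optimal move are computable in polynomial time. -/
theorem result (k : ℕ) : ∃ f, PolyTime f ∧ ∀ (E : List (ℕ × ℕ)) (S : List ℕ), ∃ (c : ℕ) (T : List ℕ),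
    f (enc (E, S)) = enc (c, T) ∧
      (c = 0 ∧ IsP k E S.toFinset ∨
        c = 1 ∧ IsN k E S.toFinset ∧ Move k E S.toFinset T.toFinset ∧ IsP k E T.toFinset ∨
        c = 2 ∧ IsO k E S.toFinset ∧ Move k E S.toFinset T.toFinset ∧ IsO k E T.toFinset) := by
  classical
  obtain ⟨f, h1, h2⟩ := polyTime_fun (pt_out k)
  refine ⟨f, h1, fun E S => ?_⟩
  rw [h2]
  generalize ho : out _ _ _ _ = o
  refine ⟨o.1, o.2, rfl, ?_⟩
  have hE : ∀ e ∈ E, e.2 < size (E, S) := fun ⟨a, b⟩ h => by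
    have := size_lt_of_mem h; simp at *; omega
  have hS : ∀ x ∈ S, x < size (E, S) := fun x h => by
    have := size_lt_of_mem h; simp at *; omega
  generalize size (E, S) = n at *
  have p : ∀ v : List ℕ, (∀ x ∈ v, x < n) → (Sol (range n) (basis n (mvs k n E)) v ↔ IsP k E v.toFinset) :=
    fun v h => (sol_full (fun b h => by obtain ⟨j, -, rfl⟩ := mem_map.1 h; exact sd_lt) h).trans
      (basis_spec hE _ (by simpa using h))
  have q : ∀ v : List ℕ, (∀ x ∈ v, x < n) → ∀ T, Move k E v.toFinset T ↔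
      ∃ m ∈ mvs k n E, m.1 ∈ v ∧ T = (sd (range n) v (mv n m)).toFinset := fun v h T => by
    simp only [move_mvs hE (S := v.toFinset) (by simpa using h), mem_toFinset, sd_eq h (b := mv n _) sd_lt]
  simp only [out, p S hS, p _ sd_lt] at ho
  split_ifs at ho with h <;> subst ho
  · exact Or.inl ⟨rfl, h⟩
  cases e : (mvs k n E).find? fun m => decide (m.1 ∈ S ∧ IsP k E (sd (range n) S (mv n m)).toFinset) with
  | some m =>
    have a := find?_some e
    have b := (q S hS _).2 ⟨m, mem_of_find?_eq_some e, (of_decide_eq_true a).1, rfl⟩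
    exact Or.inr (Or.inl ⟨rfl, ⟨_, b, (of_decide_eq_true a).2⟩, b, (of_decide_eq_true a).2⟩)
  | none =>
    have a : ¬ IsN k E S.toFinset := fun ⟨T, a, b⟩ => by
      obtain ⟨m, c, d, rfl⟩ := (q S hS _).1 a
      exact find?_eq_none.1 e m c (decide_eq_true ⟨d, b⟩)
    refine Or.inr (Or.inr ⟨rfl, ⟨h, a⟩, ?_⟩)
    cases e' : (mvs k n E).find? fun m => decide (m.1 ∈ S ∧ ¬ ∃ m' ∈ mvs k n E,
      m'.1 ∈ sd (range n) S (mv n m) ∧
        IsP k E (sd (range n) (sd (range n) S (mv n m)) (mv n m')).toFinset) with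
    | none =>
      refine absurd (isP_of _ fun T g => ?_) h
      obtain ⟨m, c, d, rfl⟩ := (q S hS _).1 g
      have := find?_eq_none.1 e' m c
      simp only [decide_eq_true_eq, d, true_and, not_not] at this
      obtain ⟨m', b1, b2, b3⟩ := this
      exact ⟨_, (q _ sd_lt _).2 ⟨m', b1, b2, rfl⟩, b3⟩
    | some m =>
      have b := find?_some e'
      have c := (q S hS _).2 ⟨m, mem_of_find?_eq_some e', (of_decide_eq_true b).1, rfl⟩
      refine ⟨c, fun g => a ⟨_, c, g⟩, fun ⟨U, g, g'⟩ => (of_decide_eq_true b).2 ?_⟩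
      obtain ⟨m', b1, b2, rfl⟩ := (q _ sd_lt _).1 g
      exact ⟨m', b1, b2, g'⟩

end Pool.Agent.Results.MP_474c54_lc.InP
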